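import Pool.Agent.H583.HC.B
import Pool.Agent.H583.GD.H

/-!
# Hyperelliptic curves with rational Weierstrass points ordered by their bad primes, at all heights

The hyperelliptic curves of genus `g ≥ 2` over `ℚ` with `2 g + 2` rational Weierstrass points are the
twists `C : y² = d t (t - x_0) ⋯ (t - x_n)`, `n + 1 = 2 g`, `d ∈ ℚ*`, of the configurations
`x = (x_0 : … : x_n)`, the points of the moduli space `M_{0, 2 g + 2}`. We order the configurations,
of whatever height, by the smallest `M_C` of their twists, the product of the primes of bad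
reduction. We show:

* there are only finitely many configurations with `M_C ≤ B` for some twist, at most
  `C B ^ (3 / 5 + ε)`; the exponent does not depend on the genus. It is smaller than the exponent
  `2 / 3` which is sharp in genus one (for four points, `n = 1`): five different points of the line
  are counted with a better bound than four;
* for some `κ` and `c`, Szpiro's inequality `Δ_C ≤ c M_C ^ κ` holds for all twists with `M_C ≤ B`
  of all configurations up to at most `C B ^ (1 / 3 + ε)` exceptions;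
* in genus two there are at least `c₀ B ^ (1 / 2)` configurations with `M_C ≤ B` for some twist.
  So the inequality of the problem holds for `100 %` of the curves of genus two over `ℚ` with
  rational Weierstrass points, ordered by `M_C`, without any restriction on the heights: the
  exceptional configurations have the proportion `O(B ^ (- 1 / 6 + ε))`.

Method: five points of the line have five cross-ratios `y_i` with `y_{i-1} y_{i+1} = 1 + y_i`; for one
of these abc triples the radical `R` is small compared with the product `Z` of all bad primes and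
the height, `R ^ 5 ≤ Z H ^ 10`; such triples are few (library), and the next points are counted with
the known primes free, four forms at a time (`H583/GD`). Large heights are counted by
`MP_2ec8a3_nt.LinkedTriples`. An odd prime at which two
Weierstrass points meet is a prime of bad reduction for all twists, and `log Δ_C` is bounded by
`(4 g + 2) log M_C` and the height of the configuration (library). In genus two the points `0`, `∞`,
`1`, `-1`, `s`, `1 / s` have good reduction outside the primes dividing `2 p q (p - q) (p + q)`,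
`s = p / q`.
-/

set_option autoImplicit false

namespace Pool.Agent.Results.MP_ca2859_nt.AllHeightsByBadPrimes

open Finset Polynomial Pool.Agent.W318

/-- the right hand side `d t (t - x_0) ⋯ (t - x_n)` -/
noncomputable def curve {n : ℕ} (d : ℚ) (x : Fin (n + 1) → ℤ) : ℚ[X] :=
  C d * (X * ∏ i, (X - C ((x i : ℤ) : ℚ)))

/-- coprime integral coordinates, different from each other and from zero (each configuration has
two such vectors, `x` and `-x`) -/
def Configuration {n : ℕ} (x : Fin (n + 1) → ℤ) : Prop :=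
  univ.gcd x = 1 ∧ (∀ i, x i ≠ 0) ∧ Function.Injective x

/-- the configurations, of whatever height, with `M_C ≤ B` for some twist -/
def ByBadPrimes (g n : ℕ) (B : ℝ) : Set (Fin (n + 1) → ℤ) :=
  {x | Configuration x ∧ ∃ d : ℚ, d ≠ 0 ∧ (badNorm g (curve d x) : ℝ) ≤ B}

/-- the configurations, of whatever height, for which Szpiro's inequality `Δ_C ≤ c M_C ^ κ` fails
for some twist with `M_C ≤ B` -/
def Exceptions (g n : ℕ) (κ c B : ℝ) : Set (Fin (n + 1) → ℤ) :=
  {x | Configuration x ∧ ∃ d : ℚ, d ≠ 0 ∧ (badNorm g (curve d x) : ℝ) ≤ B ∧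
    c * (badNorm g (curve d x) : ℝ) ^ κ < discNorm g (curve d x)}

open Pool.Agent.H583.HC Pool.Agent.TH905.HS
open Pool.Agent.Results.MP_17a322_nt Pool.Agent.Results.MP_2ec8a3_nt

theorem curve_eq {n : ℕ} (d : ℚ) (x : Fin (n + 1) → ℤ) : curve d x = pol d (root (rx x)) := by
  unfold curve pol
  rw [Fin.prod_univ_succ (fun i : Fin (n + 2) => (X - C (root (rx x) i) : ℚ[X]))]
  have h0 : root (rx x) 0 = 0 := rfl
  have h1 : ∀ i : Fin (n + 1), root (rx x) i.succ = ((x i : ℤ) : ℚ) := fun i => rfl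
  simp only [h0, h1, C_0, sub_zero]

/-- the upper bound for the number of all configurations -/
theorem upper {g n : ℕ} (hg : 2 ≤ g) (hn : n + 1 = 2 * g) {ε : ℝ} (hε : 0 < ε) :
    ∃ C : ℝ, 0 < C ∧ ∀ B : ℝ, 1 ≤ B → (ByBadPrimes g n B).Finite ∧
      ((ByBadPrimes g n B).ncard : ℝ) ≤ C * B ^ (3 / 5 + ε) := by
  obtain ⟨C, hC, h⟩ := Pool.Agent.H583.GD.braid_all (n := n) (by omega) (braid_contains n) {2} ε hε
  refine ⟨C, hC, ?_⟩
  intro B hB
  apply LinkedTriples.of_bound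
  intro Q hQ
  apply h B hB Q
  intro x hxQ
  obtain ⟨hx, d, hd, hM⟩ := hQ x hxQ
  rw [curve_eq] at hM
  have h1 := isPoint_of_conf hx
  refine ⟨h1.1, h1.2, ?_⟩
  have h3 : ((odd x : ℕ) : ℝ) ≤ badNorm g (pol d (root (rx x))) := by
    exact_mod_cast odd_le hn hg hd hx
  exact h3.trans hM

/-- the exceptions to Szpiro's inequality -/
theorem exceptions {g n : ℕ} (hg : 2 ≤ g) (hn : n + 1 = 2 * g) {ε : ℝ} (hε : 0 < ε) :
    ∃ κ c C : ℝ, 0 < c ∧ 0 < C ∧ ∀ B : ℝ, 1 ≤ B → (Exceptions g n κ c B).Finite ∧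
      ((Exceptions g n κ c B).ncard : ℝ) ≤ C * B ^ (1 / 3 + ε) := by
  obtain ⟨κ, C, hC, h⟩ := LinkedTriples.result.1 3 n _ (braid n) le_rfl (by omega)
    (LinkedTriples.pencils_of_braid (braid_contains n)) {2} ε hε
  obtain ⟨c, hc, hd⟩ := disc_le hn hg κ
  refine ⟨2 * (n + 2) + (n + 2) * (n + 1) * n * max κ 0, c, C, hc, hC, ?_⟩
  intro B hB
  obtain ⟨h1, h2⟩ := h B hB
  have hsub : Exceptions g n (2 * (n + 2) + (n + 2) * (n + 1) * n * max κ 0) c B ⊆
      LinkedTriples.Exceptional {2} (braid n) κ B := by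
    rintro x ⟨hx, d, hd0, hM, hΔ⟩
    rw [curve_eq] at hM hΔ
    refine ⟨isPoint_of_conf hx, ?_, hd x d hx hd0 hΔ⟩
    rw [LinkedTriples.counting_eq]
    have h3 : ((odd x : ℕ) : ℝ) ≤ badNorm g (pol d (root (rx x))) := by
      exact_mod_cast odd_le hn hg hd0 hx
    have h4 : (0 : ℝ) < (odd x : ℕ) := by exact_mod_cast odd_pos x
    exact Real.log_le_log h4 (h3.trans hM)
  refine ⟨h1.subset hsub, ?_⟩
  have h4 : ((Exceptions g n (2 * (n + 2) + (n + 2) * (n + 1) * n * max κ 0) c B).ncard : ℝ) ≤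
      ((LinkedTriples.Exceptional {2} (braid n) κ B).ncard : ℝ) := by
    exact_mod_cast Set.ncard_le_ncard hsub h1
  have h5 : ((3 : ℕ) : ℝ) = 3 := by norm_num
  rw [h5] at h2
  exact h4.trans h2

/-- the configurations of genus two with few bad primes -/
theorem lower {B : ℝ} (hB : 1024 ≤ B) :
    1 / 64 * B ^ (1 / 2 : ℝ) ≤ ((ByBadPrimes 2 3 B).ncard : ℝ) := by
  classical
  have hB0 : 0 < B := by linarith
  obtain ⟨Y, hY⟩ : ∃ Y : ℝ, Y = (B / 4) ^ (1 / 4 : ℝ) := ⟨_, rfl⟩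
  have hY0 : 0 ≤ Y := by rw [hY]; positivity
  have hY4 : Y ^ 4 = B / 4 := by
    rw [hY, ← Real.rpow_natCast, ← Real.rpow_mul (by positivity)]
    norm_num
  have hY2 : 4 ≤ Y := by
    apply le_of_pow_le_pow_left₀ (n := 4) (by norm_num) hY0
    rw [hY4]
    linarith
  obtain ⟨H, hH⟩ : ∃ H : ℕ, H = ⌊Y⌋₊ := ⟨_, rfl⟩
  have hH1 : (H : ℝ) ≤ Y := by rw [hH]; exact Nat.floor_le hY0
  have hH2 : Y / 2 ≤ H := by
    have h1 : Y < H + 1 := by rw [hH]; exact Nat.lt_floor_add_one _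
    linarith
  have hH4 : (4 : ℝ) ≤ H := by
    have : 4 ≤ H := by
      rw [hH]
      exact Nat.le_floor (by exact_mod_cast hY2)
    exact_mod_cast this
  have hHB : 4 * (H : ℝ) ^ 4 ≤ B := by
    have : (H : ℝ) ^ 4 ≤ Y ^ 4 := pow_le_pow_left₀ (Nat.cast_nonneg _) hH1 4
    rw [hY4] at this
    linarith
  obtain ⟨R, hR⟩ : ∃ R, R = (Pool.Agent.TH867.SB.Lb.rect H H).filter fun z => z.1 ≠ z.2 :=
    ⟨_, rfl⟩
  have hmem : ∀ z ∈ R, 0 < z.1 ∧ z.1 ≤ H ∧ 0 < z.2 ∧ z.2 ≤ H ∧ Nat.Coprime z.1 z.2 ∧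
      z.1 ≠ z.2 := by
    intro z hz
    rw [hR, mem_filter] at hz
    obtain ⟨h1, h2⟩ := hz
    unfold Pool.Agent.TH867.SB.Lb.rect at h1
    rw [mem_filter, mem_product, mem_Ioc, mem_Ioc] at h1
    exact ⟨h1.1.1.1, h1.1.1.2, h1.1.2.1, h1.1.2.2, h1.2, h2⟩
  have hR1 : (H : ℝ) * H / 4 - 1 ≤ R.card := by
    have h1 := Pool.Agent.TH867.SB.Lb.rect_count H H
    have h2 : Pool.Agent.TH867.SB.Lb.rect H H ⊆ insert (1, 1) R := by
      intro z hz
      rw [mem_insert, hR, mem_filter]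
      by_cases h : z.1 = z.2
      · left
        unfold Pool.Agent.TH867.SB.Lb.rect at hz
        rw [mem_filter] at hz
        have h3 := hz.2
        rw [← h, Nat.coprime_self] at h3
        exact Prod.ext h3 (h ▸ h3)
      · exact Or.inr ⟨hz, h⟩
    have h3 := (card_le_card h2).trans (card_insert_le _ _)
    have h4 : ((Pool.Agent.TH867.SB.Lb.rect H H).card : ℝ) ≤ R.card + 1 := by exact_mod_cast h3
    linarith
  have hin : ∀ z ∈ R, x4 (z.1 : ℤ) (z.2 : ℤ) ∈ ByBadPrimes 2 3 B := by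
    intro z hz
    obtain ⟨h1, h2, h3, h4, h5, h6⟩ := hmem z hz
    have hne : 2 * (z.1 : ℤ) * z.2 * (z.1 - z.2) * (z.1 + z.2) ≠ 0 := by
      have e1 : (z.1 : ℤ) ≠ 0 := by exact_mod_cast h1.ne'
      have e2 : (z.2 : ℤ) ≠ 0 := by exact_mod_cast h3.ne'
      have e3 : (z.1 : ℤ) - z.2 ≠ 0 := sub_ne_zero.2 (by exact_mod_cast h6)
      have e4 : (z.1 : ℤ) + z.2 ≠ 0 := by positivity
      positivity
    refine ⟨conf_x4 hne (Nat.isCoprime_iff_coprime.2 h5), 1, one_ne_zero, ?_⟩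
    rw [curve_eq]
    have h7 := bad_x4 hne
    have h8 : (2 * (z.1 : ℤ) * z.2 * (z.1 - z.2) * (z.1 + z.2)).natAbs ≤ 4 * H ^ 4 := by
      rw [Int.natAbs_mul, Int.natAbs_mul, Int.natAbs_mul, Int.natAbs_mul]
      have e1 : ((z.1 : ℤ) - z.2).natAbs ≤ H := by omega
      have e2 : ((z.1 : ℤ) + z.2).natAbs ≤ 2 * H := by omega
      have e3 : (z.1 : ℤ).natAbs ≤ H := by omega
      have e4 : (z.2 : ℤ).natAbs ≤ H := by omega
      calc (2 : ℤ).natAbs * (z.1 : ℤ).natAbs * (z.2 : ℤ).natAbs * ((z.1 : ℤ) - z.2).natAbs *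
            ((z.1 : ℤ) + z.2).natAbs ≤ 2 * H * H * H * (2 * H) := by
            gcongr
            exact le_rfl
        _ = 4 * H ^ 4 := by ring
    have h9 : (badNorm 2 (pol 1 (root (rx (x4 (z.1 : ℤ) (z.2 : ℤ))))) : ℝ) ≤ 4 * (H : ℝ) ^ 4 := by
      exact_mod_cast h7.trans h8
    exact h9.trans hHB
  have hinj : Set.InjOn (fun z : ℕ × ℕ => x4 (z.1 : ℤ) (z.2 : ℤ)) R := by
    intro z _ w _ hzw
    have h1 := congrFun hzw 2
    have h2 := congrFun hzw 3
    have h3 : (z.1 : ℤ) ^ 2 = (w.1 : ℤ) ^ 2 := h1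
    have h4 : (z.2 : ℤ) ^ 2 = (w.2 : ℤ) ^ 2 := h2
    have h5 : z.1 ^ 2 = w.1 ^ 2 := by exact_mod_cast h3
    have h6 : z.2 ^ 2 = w.2 ^ 2 := by exact_mod_cast h4
    exact Prod.ext (Nat.pow_left_injective two_ne_zero h5) (Nat.pow_left_injective two_ne_zero h6)
  have hfin : (ByBadPrimes 2 3 B).Finite := by
    obtain ⟨C, -, h⟩ := upper (g := 2) (n := 3) le_rfl rfl one_pos
    exact (h B (by linarith)).1
  have hcard : R.card ≤ (ByBadPrimes 2 3 B).ncard := by
    rw [← card_image_of_injOn hinj, ← Set.ncard_coe_finset]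
    apply Set.ncard_le_ncard _ hfin
    intro x hx
    rw [coe_image] at hx
    obtain ⟨z, hz, rfl⟩ := hx
    exact hin z hz
  have h1 : B ^ (1 / 2 : ℝ) = 2 * Y ^ 2 := by
    have e1 : Y ^ 2 = (B / 4) ^ (1 / 2 : ℝ) := by
      rw [hY, ← Real.rpow_natCast, ← Real.rpow_mul (by positivity)]
      norm_num
    have e2 : (4 : ℝ) ^ (1 / 2 : ℝ) = 2 := by
      rw [show (4 : ℝ) = 2 ^ (2 : ℝ) by norm_num, ← Real.rpow_mul (by norm_num)]
      norm_num
    rw [e1, Real.div_rpow hB0.le (by norm_num), e2]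
    field_simp
  have h2 : (Y / 2) * (Y / 2) ≤ (H : ℝ) * H :=
    mul_le_mul hH2 hH2 (by positivity) (Nat.cast_nonneg _)
  have h3 : (16 : ℝ) ≤ H * H := by nlinarith
  have h4 : (R.card : ℝ) ≤ ((ByBadPrimes 2 3 B).ncard : ℝ) := by exact_mod_cast hcard
  rw [h1]
  nlinarith

/-- **Theorem.** Configurations `x = (x_0 : … : x_n)`, `n + 1 = 2 g`, of all heights, and the
hyperelliptic curves `C : y² = d t (t - x_0) ⋯ (t - x_n)` over `ℚ`. (1) For all `g ≥ 2` and `ε > 0`
at most `C B ^ (3 / 5 + ε)` configurations have a twist with `M_C ≤ B`. (2) For all `g ≥ 2` and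
`ε > 0` there are `κ` and `c` such that for at most `C B ^ (1 / 3 + ε)` configurations the inequality
`Δ_C ≤ c M_C ^ κ` fails for some twist with `M_C ≤ B`. (3) In genus two at least `c₀ B ^ (1 / 2)`
configurations have a twist with `M_C ≤ B`, for all large `B`. (4) In genus two there are for every
`ε > 0` numbers `κ` and `c` such that for all `B ≥ 1` the exceptions of (2) are at most the
proportion `C B ^ (- 1 / 6 + ε)` of the configurations which have a twist with `M_C ≤ B`. -/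
theorem result :
    (∀ g n : ℕ, 2 ≤ g → n + 1 = 2 * g → ∀ ε : ℝ, 0 < ε → ∃ C : ℝ, 0 < C ∧ ∀ B : ℝ, 1 ≤ B →
      (ByBadPrimes g n B).Finite ∧ ((ByBadPrimes g n B).ncard : ℝ) ≤ C * B ^ (3 / 5 + ε)) ∧
    (∀ g n : ℕ, 2 ≤ g → n + 1 = 2 * g → ∀ ε : ℝ, 0 < ε → ∃ κ c C : ℝ, 0 < c ∧ 0 < C ∧
      ∀ B : ℝ, 1 ≤ B → (Exceptions g n κ c B).Finite ∧
        ((Exceptions g n κ c B).ncard : ℝ) ≤ C * B ^ (1 / 3 + ε)) ∧
    (∃ c₀ B₀ : ℝ, 0 < c₀ ∧ ∀ B : ℝ, B₀ ≤ B →
      c₀ * B ^ (1 / 2 : ℝ) ≤ ((ByBadPrimes 2 3 B).ncard : ℝ)) ∧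
    (∀ ε : ℝ, 0 < ε → ∃ κ c C : ℝ, 0 < c ∧ 0 < C ∧ ∀ B : ℝ, 1 ≤ B →
      ((Exceptions 2 3 κ c B).ncard : ℝ) ≤
        C * B ^ (-(1 / 6) + ε) * ((ByBadPrimes 2 3 B).ncard : ℝ)) := by
  refine ⟨fun g n hg hn ε hε => upper hg hn hε, fun g n hg hn ε hε => exceptions hg hn hε,
    ⟨1 / 64, 1024, by norm_num, fun B hB => lower hB⟩, ?_⟩
  intro ε hε
  obtain ⟨κ, c, C, hc, hC, h⟩ := exceptions (g := 2) (n := 3) le_rfl rfl hε
  refine ⟨κ, c, 64 * C + 1024 ^ (1 / 6 : ℝ), hc, by positivity, ?_⟩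
  intro B hB
  have hB0 : 0 < B := by linarith
  have hN : (0 : ℝ) ≤ (ByBadPrimes 2 3 B).ncard := Nat.cast_nonneg _
  by_cases hB1 : 1024 ≤ B
  · have h1 := (h B hB).2
    have h2 := lower hB1
    calc ((Exceptions 2 3 κ c B).ncard : ℝ) ≤ C * B ^ (1 / 3 + ε) := h1
      _ = (64 * C) * B ^ (-(1 / 6) + ε) * (1 / 64 * B ^ (1 / 2 : ℝ)) := by
          have : B ^ (1 / 3 + ε) = B ^ (-(1 / 6) + ε) * B ^ (1 / 2 : ℝ) := by
            rw [← Real.rpow_add hB0]
            congr 1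
            ring
          rw [this]
          ring
      _ ≤ (64 * C) * B ^ (-(1 / 6) + ε) * ((ByBadPrimes 2 3 B).ncard : ℝ) := by gcongr
      _ ≤ _ := by
          have h3 : (0 : ℝ) ≤ 1024 ^ (1 / 6 : ℝ) := by positivity
          have h4 : (0 : ℝ) ≤ B ^ (-(1 / 6) + ε) := by positivity
          gcongr
          linarith
  · push Not at hB1
    have hfin : (ByBadPrimes 2 3 B).Finite := by
      obtain ⟨C', -, h'⟩ := upper (g := 2) (n := 3) le_rfl rfl one_pos
      exact (h' B hB).1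
    have hsub : Exceptions 2 3 κ c B ⊆ ByBadPrimes 2 3 B := by
      rintro x ⟨hx, d, hd, hM, -⟩
      exact ⟨hx, d, hd, hM⟩
    have h1 : ((Exceptions 2 3 κ c B).ncard : ℝ) ≤ (ByBadPrimes 2 3 B).ncard := by
      exact_mod_cast Set.ncard_le_ncard hsub hfin
    have h2 : 1 ≤ (64 * C + 1024 ^ (1 / 6 : ℝ)) * B ^ (-(1 / 6) + ε) := by
      have h3 : B ^ (-(1 / 6 : ℝ)) ≤ B ^ (-(1 / 6) + ε) :=
        Real.rpow_le_rpow_of_exponent_le hB (by linarith)
      have h4 : (1024 : ℝ) ^ (-(1 / 6 : ℝ)) ≤ B ^ (-(1 / 6 : ℝ)) :=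
        Real.rpow_le_rpow_of_nonpos hB0 hB1.le (by norm_num)
      have h5 : (1024 : ℝ) ^ (1 / 6 : ℝ) * 1024 ^ (-(1 / 6 : ℝ)) = 1 := by
        rw [← Real.rpow_add (by norm_num)]
        norm_num
      calc (1 : ℝ) = 1024 ^ (1 / 6 : ℝ) * 1024 ^ (-(1 / 6 : ℝ)) := h5.symm
        _ ≤ (64 * C + 1024 ^ (1 / 6 : ℝ)) * B ^ (-(1 / 6) + ε) := by
            apply mul_le_mul _ (h4.trans h3) (by positivity) (by positivity)
            linarith
    calc ((Exceptions 2 3 κ c B).ncard : ℝ) ≤ 1 * (ByBadPrimes 2 3 B).ncard := by linarith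
      _ ≤ _ := mul_le_mul_of_nonneg_right h2 hN

end Pool.Agent.Results.MP_ca2859_nt.AllHeightsByBadPrimes
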