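import Pool.Agent.H433.CR.Szp4

/-!
# The discriminant conjecture of Szpiro for all the quadratic twists of 100 per cent of the
# hyperelliptic curves `e y ^ 2 = φ(x) - t`, uniformly for all the polynomials `φ` with rational
# critical points, in every genus and over every number field

`MP_ca2859_nt` (Q1, a partial answer for every `g ≥ 1` and every number field `K`). We prove
`Δ_C ≤ c N_C ^ κ` for ALL the quadratic twists `C` of 100 per cent of the curves `y ^ 2 = φ(x) - t` of
genus `g` (with a power saving for the exceptional `t`), uniformly for all the polynomials `φ` of
degree `2 g + 1` or `2 g + 2` with rational critical points (of bounded size), for every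
`κ > (4 g + 3) / (2 g)` (this is `7 / 2` for `g = 1`) and every `c > 0`; and `Δ_C ≤ c M_C ^ κ'` for every
`κ' > 1` for the curve itself (`g ≥ 2`). The slopes should be the best possible ones for this family (not proved here). The Galois
group of the Weierstrass points is the full symmetric group for 100 per cent of the `t`. (The library
has `UniformPencils`: `Δ_C ≤ c M_C ^ κ` in the pencils `y ^ 2 = f(x) + t` over `ℚ`, uniformly for all the
monic `f` but only for `κ > n - 1`, `n` the degree; and inequalities with an exponent which is not
specified for almost all the members of every family, `EveryOneParameterFamily`.)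

The curves. `φ ∈ O_K[x]` is monic of degree `m + 1`, `m = 2 g` or `m = 2 g + 1`, its derivative is
`(m + 1) (x - c_1) ... (x - c_m)` with `c_i ∈ O_K`, the critical values `φ(c_i)` are different, and
for all the embeddings of `K` in `ℂ` we have `|c_i| ^ (m + 1) ≤ A T` and `|φ(0)| ≤ A T`
(`Crit m A T φ p`). Examples: every `φ` with rational critical points and different critical values
if `T ≥ T_0(φ)`; or all the `φ` with `φ(0) = 0` and with `c_i ∈ m! O_K`,
`|c_i| ≤ (A T) ^ {1 / (m + 1)}` and with different critical values. `t` is in the box of the elements
of `O_K` whose coordinates in an integral basis are at most `T` (`box K T`). The map `(c, t) ↦ φ - t`,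
`φ(0) = 0`, from the space of dimension `m + 1` to the space of all the monic polynomials of degree
`m + 1` is finite and surjective over the algebraic closure. Let `f = φ - t` and `D = f.discr`.
`curve f e` is the polynomial `e f(x)`, this is the twist of `y ^ 2 = f(x)` by `e`.

The discriminant. `discNorm g F` is the definition of the library (`W318/SzpDefs`) of `Δ_C` for
`y ^ 2 = F(x)`: the product of the `N v ^ (n_v)`, where `n_v` is the minimum of `v(Δ)` over all the
Weierstrass models over the local ring at `v`, as in the problem. `badNorm g F` is the definition of
the library of `M_C`: the product of the `N v` with `n_v ≠ 0`.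

The conductor. `cond g f e` is the part of the conductor of the Jacobian `J_e` at the places `v` which do
not divide `2` and divide `D` at most once. The exponent is `2 g` if the order of `e` is odd (the
inertia group acts by a unipotent representation times a ramified quadratic character). If the order
of `e` is even, then it is `1` if `v` divides `D` (one node), and `0` if not (good reduction). So
`cond g f e` divides `N_C`.

The theorem. Let `g ≥ 1`, `m = 2 g` or `2 g + 1`, `A ≥ 1`, `κ > (4 g + 3) / (2 g)`, `κ' > 1` and `c > 0`.
There are `C` and `δ > 0` such that for all `T ≥ 1` and for all `φ` with `Crit m A T φ p` the following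
is true for all but `C T ^ (-δ) #(box K T)` of the `t ∈ box K T` (`SzpiroB`): the curves
`y ^ 2 = e f(x)`, `e ∈ K`, `e ≠ 0`, all have genus `g`, and

`Δ(y ^ 2 = e f(x)) ≤ c (cond g f e) ^ κ` for ALL `e ≠ 0`, and `Δ(y ^ 2 = f(x)) ≤ c (cond g f 1) ^ κ'`, and
`Δ(y ^ 2 = f(x)) ≤ c M(y ^ 2 = f(x)) ^ κ'` if `g ≥ 2`.

The proof. `D = ± (m + 1) ^ (m + 1) ∏ (t - φ(c_i))`. For all but `C T ^ (-δ) #(box K T)` of the `t`
the numbers `t - φ(c_i)` are almost coprime and almost squarefree, so that the primes dividing `D`
exactly once have a product of norm at least `T ^ (m [K : ℚ] - η)`, and the norm of `D` is at most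
`T ^ (m [K : ℚ] + η)`. The exponent `n_v` of the twist is at most the order of `D` plus `4 g + 2` times
the parity of the order of `e` (and `4 g v(2)`), and the contributions of the places to the two sides
of the inequality are compared one by one. If `v` divides `D` exactly once and does not divide `2`, then
the discriminants of all the forms over `K` have an order `≡ 1` modulo `4 g + 2`, so that `n_v ≠ 0`. The
lemmas of the counting were proved by helper51,
helper80, helper115 and helper163; the upper bound of `n_v` by an integral form and the comparison of
the models with the binary forms are from the library.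
-/

set_option autoImplicit false

open NumberField IsDedekindDomain Finset Polynomial

namespace Pool.Agent.Results.MP_ca2859_nt.RationalCriticalPoints

open Pool.Agent.H433 Pool.Agent.H433.AC
open Pool.Agent.H433.CQ (Crit)
open Pool.Agent.H433.CR (SzpiroB)

open Classical in
/-- The inequality of Szpiro with the exponent `κ > (4 g + 3) / (2 g)` for all the twists, and with the
exponent `κ' > 1` for the curve itself, for almost all the curves `y ^ 2 = φ(x) - t`, uniformly for all
the polynomials `φ` of degree `2 g + 1` or `2 g + 2` with rational critical points. -/
theorem result (g m : ℕ) (hg : 1 ≤ g) (hm : m = 2 * g ∨ m = 2 * g + 1) (K : Type) [Field K]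
    [NumberField K] (A : ℝ) (hA : 1 ≤ A) (κ κ' c : ℝ) (hκ : (4 * (g : ℝ) + 3) / (2 * g) < κ)
    (hκ' : 1 < κ') (hc : 0 < c) :
    ∃ C δ : ℝ, 0 < δ ∧ ∀ T : ℕ, 1 ≤ T → ∀ (φ : (𝓞 K)[X]) (p : Fin m → 𝓞 K), Crit m A T φ p →
      (((box K T).filter fun t => ¬ SzpiroB g κ κ' c (φ - Polynomial.C t)).card : ℝ) ≤
        C * (T : ℝ) ^ (-δ) * (box K T).card :=
  Pool.Agent.H433.CR.szpB g m hg hm K hA hκ hκ' hc

end Pool.Agent.Results.MP_ca2859_nt.RationalCriticalPoints
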